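import Pool.Agent.Helper64.RFn.GoalsL

/-!
PROJECT RFn, packet CONn: the cone structure of a metric of `S^n` in an orthonormal frame.
-/

open MeasureTheory Set Matrix

open scoped RealInnerProductSpace

namespace Pool.Agent.Helper42.RFn

open Pool.Agent.Helper64.RFn

open Pool.Agent.Helper47.RFn (EE MF pd Hom0 Sm IsMetric cyl Chr Rup Rm ip gvol)

namespace Cn

variable {n : ℕ}

theorem vsum (v : V (n + 1)) : v = ∑ i, v i • EuclideanSpace.single i (1:ℝ) := by
  ext k
  simp [Pi.single_apply]

theorem toE_apply (M : Matrix (Fin (n + 1)) (Fin (n + 1)) ℝ) (v : V (n + 1)) (k : Fin (n + 1)) :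
    Matrix.toEuclideanCLM (𝕜 := ℝ) M v k = ∑ j, M k j * v j := by
  simp [Matrix.mulVec, dotProduct]

theorem innerE (a b : V (n + 1)) : ⟪a, b⟫ = ∑ k, a k * b k := by
  rw [PiLp.inner_apply]
  refine Finset.sum_congr rfl fun k _ => ?_
  simp [mul_comm]

theorem isOpen_ne0 : IsOpen ({0}ᶜ : Set (EE n)) := isOpen_compl_singleton

theorem diff_of_cd {f : EE n → ℝ} (hf : ContDiffOn ℝ (⊤ : ℕ∞) f {0}ᶜ) {x : EE n} (hx : x ≠ 0) :
    DifferentiableAt ℝ f x :=
  (hf.contDiffAt (isOpen_ne0.mem_nhds hx)).differentiableAt (by simp)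

theorem fderivE {f : EE n → ℝ} (x u : EE n) :
    fderiv ℝ f x u = ∑ i, u i * pd i f x := by
  conv_lhs => rw [vsum u]
  rw [map_sum]
  refine Finset.sum_congr rfl fun i _ => ?_
  rw [map_smul, smul_eq_mul]
  rfl

theorem pd_hom {f : EE n → ℝ} (hf : Hom0 f) (i : Fin (n + 1)) {r : ℝ} (hr : 0 < r) (x : EE n) :
    pd i f (r • x) = r⁻¹ * pd i f x := by
  have h1 : (fun y => f (r • y)) = f := by
    funext y; exact hf r y hr
  have h2 := fderiv_comp_smul (𝕜 := ℝ) (f := f) (x := x) r
  rw [h1] at h2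
  unfold pd
  rw [h2, _root_.smul_apply, smul_eq_mul, ← mul_assoc, inv_mul_cancel₀ hr.ne', one_mul]

theorem euler {f : EE n → ℝ} (hf : Sm f) {x : EE n} (hx : x ≠ 0) : ∑ i, x i * pd i f x = 0 := by
  rw [← fderivE x x]
  have h1 : HasDerivAt (fun t : ℝ => f ((1 + t) • x)) (fderiv ℝ f x x) 0 := by
    have h2 : HasDerivAt (fun t : ℝ => (1 + t) • x) x 0 := by
      have := ((hasDerivAt_id (0:ℝ)).const_add 1).smul_const x
      simpa using this
    have h3 : HasFDerivAt f (fderiv ℝ f x) ((1 + (0:ℝ)) • x) := by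
      rw [add_zero, one_smul]
      exact (diff_of_cd hf.cd hx).hasFDerivAt
    exact h3.comp_hasDerivAt 0 h2
  have h4 : HasDerivAt (fun t : ℝ => f ((1 + t) • x)) 0 0 := by
    refine (hasDerivAt_const (0:ℝ) (f x)).congr_of_eventuallyEq ?_
    have : ∀ᶠ t : ℝ in nhds 0, (-1:ℝ) < t := lt_mem_nhds (by norm_num)
    filter_upwards [this] with t ht
    exact hf.hom (1 + t) x (by linarith)
  exact h1.unique h4

theorem pd_cd {f : EE n → ℝ} (hf : ContDiffOn ℝ (⊤ : ℕ∞) f {0}ᶜ) (i : Fin (n + 1)) :
    ContDiffOn ℝ (⊤ : ℕ∞) (pd i f) {0}ᶜ := by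
  unfold pd
  exact (hf.fderiv_of_isOpen isOpen_ne0 (by simp)).clm_apply contDiffOn_const

theorem pd_sum_mul {f g : Fin (n + 1) → EE n → ℝ} {x : EE n}
    (hf : ∀ l, DifferentiableAt ℝ (f l) x) (hg : ∀ l, DifferentiableAt ℝ (g l) x) (i : Fin (n + 1)) :
    pd i (fun y => ∑ l, f l y * g l y) x = ∑ l, (pd i (f l) x * g l x + f l x * pd i (g l) x) := by
  unfold pd
  have h : HasFDerivAt (fun y => ∑ l, f l y * g l y)
      (∑ l, (f l x • fderiv ℝ (g l) x + g l x • fderiv ℝ (f l) x)) x := by
    have := HasFDerivAt.fun_sum (u := Finset.univ) (fun l (_ : l ∈ Finset.univ) =>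
      (hf l).hasFDerivAt.mul (hg l).hasFDerivAt)
    exact this
  rw [h.fderiv, _root_.sum_apply]
  refine Finset.sum_congr rfl fun l _ => ?_
  simp only [_root_.add_apply, _root_.smul_apply, smul_eq_mul]
  ring

/-- a field of matrices with smooth entries gives a smooth field of endomorphisms -/
theorem cd_toE {M : EE n → Matrix (Fin (n + 1)) (Fin (n + 1)) ℝ} {s : Set (EE n)}
    (hM : ∀ i j, ContDiffOn ℝ (⊤ : ℕ∞) (fun x => M x i j) s) :
    ContDiffOn ℝ (⊤ : ℕ∞) (fun x => Matrix.toEuclideanCLM (𝕜 := ℝ) (M x)) s := by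
  have h : (fun x => Matrix.toEuclideanCLM (𝕜 := ℝ) (M x))
      = fun x => ∑ i, ∑ j, M x i j • Matrix.toEuclideanCLM (𝕜 := ℝ) (Matrix.single i j (1:ℝ)) := by
    funext x
    conv_lhs => rw [Matrix.matrix_eq_sum_single (M x)]
    rw [map_sum]
    refine Finset.sum_congr rfl fun i _ => ?_
    rw [map_sum]
    refine Finset.sum_congr rfl fun j _ => ?_
    rw [← map_smul, Matrix.smul_single, smul_eq_mul, mul_one]
  rw [h]
  exact ContDiffOn.sum fun i _ => ContDiffOn.sum fun j _ => (hM i j).smul contDiffOn_const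

variable {G A θ : MF n}

theorem Tm_apply (x : EE n) (v : V (n + 1)) (k : Fin (n + 1)) :
    Tm θ x v k = ∑ j, θ x j k * v j := by
  unfold Tm
  rw [toE_apply]
  rfl

theorem Bm_apply (x : EE n) (u v : V (n + 1)) (k : Fin (n + 1)) :
    Bm G A θ x u v k = ∑ i, u i * ∑ j, Mi G A θ i x k j * v j := by
  unfold Bm
  rw [_root_.sum_apply, _root_.sum_apply]
  have h : (∑ i, ((EuclideanSpace.proj i : V (n + 1) →L[ℝ] ℝ).smulRight
      (Matrix.toEuclideanCLM (𝕜 := ℝ) (Mi G A θ i x)) u) v) k
      = ∑ i, (((EuclideanSpace.proj i : V (n + 1) →L[ℝ] ℝ).smulRight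
      (Matrix.toEuclideanCLM (𝕜 := ℝ) (Mi G A θ i x)) u) v) k := by
    simp
  rw [h]
  refine Finset.sum_congr rfl fun i _ => ?_
  rw [ContinuousLinearMap.smulRight_apply, _root_.smul_apply, PiLp.smul_apply,
    toE_apply, smul_eq_mul]
  rfl

theorem Mi_entry (i k j : Fin (n + 1)) (x : EE n) :
    Mi G A θ i x k j = ∑ m, (∑ l, θ x l k * Chr G i m l x) * A x j m
      - ∑ m, pd i (fun y => θ y m k) x * A x j m := by
  unfold Mi
  simp [Matrix.sub_apply, Matrix.mul_apply]

theorem cancel {A θ S : Matrix (Fin (n + 1)) (Fin (n + 1)) ℝ} (h : A * θ = 1)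
    (hS : ∀ j k, ∑ a, ∑ b, θ j a * S a b * θ k b = 0) : S = 0 := by
  have h1 : θ * S * θ.transpose = 0 := by
    ext j k
    rw [Matrix.mul_apply, Matrix.zero_apply, ← hS j k, Finset.sum_comm]
    refine Finset.sum_congr rfl fun b _ => ?_
    rw [Matrix.mul_apply, Matrix.transpose_apply, Finset.sum_mul]
  have h2 : θ.transpose * A.transpose = 1 := by
    rw [← Matrix.transpose_mul, h, Matrix.transpose_one]
  calc S = (A * θ) * S * (θ.transpose * A.transpose) := by rw [h, h2, one_mul, mul_one]
    _ = A * (θ * S * θ.transpose) * A.transpose := by simp only [Matrix.mul_assoc]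
    _ = 0 := by rw [h1, Matrix.mul_zero, Matrix.zero_mul]

end Cn

open Cn

theorem conn (chr : CHRn) : CONn := by
  intro n G A θ h
  obtain ⟨cs, cb, cc, -, ch, csm⟩ := chr n G h.met
  have hθA : ∀ x, θ x * A x = 1 := fun x => mul_eq_one_comm.mp (h.inv x)
  have hcdθ : ∀ i j, ContDiffOn ℝ (⊤ : ℕ∞) (fun x => θ x i j) {0}ᶜ := fun i j => (h.smt i j).cd
  have hcdA : ∀ i j, ContDiffOn ℝ (⊤ : ℕ∞) (fun x => A x i j) {0}ᶜ := fun i j => (h.smA i j).cd
  have hAθ' : ∀ x k j, ∑ m, A x k m * θ x m j = if k = j then 1 else 0 := by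
    intro x k j
    have := congrFun (congrFun (h.inv x) k) j
    rw [Matrix.mul_apply, Matrix.one_apply] at this
    exact this
  have hθA' : ∀ x k j, ∑ m, θ x k m * A x m j = if k = j then 1 else 0 := by
    intro x k j
    have := congrFun (congrFun (hθA x) k) j
    rw [Matrix.mul_apply, Matrix.one_apply] at this
    exact this
  have hG : ∀ x j k, G x j k = ∑ l, θ x j l * θ x k l := by
    intro x j k
    have := congrFun (congrFun (h.gth x) j) k
    rw [Matrix.mul_apply] at this
    exact this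
  have hGs : ∀ x j k, G x j k = G x k j := by
    intro x j k
    rw [hG, hG]
    exact Finset.sum_congr rfl fun l _ => mul_comm _ _
  have hdθ : ∀ i j x, x ≠ 0 → DifferentiableAt ℝ (fun y => θ y i j) x := fun i j x hx =>
    diff_of_cd (hcdθ i j) hx
  -- smoothness of `Mi`
  have hMcd : ∀ i k j, ContDiffOn ℝ (⊤ : ℕ∞) (fun x => Mi G A θ i x k j) {0}ᶜ := by
    intro i k j
    have e : (fun x => Mi G A θ i x k j) = fun x => ∑ m, (∑ l, θ x l k * Chr G i m l x) * A x j m
        - ∑ m, pd i (fun y => θ y m k) x * A x j m := by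
      funext x; exact Mi_entry i k j x
    rw [e]
    refine ContDiffOn.sub (ContDiffOn.sum fun m _ => ?_) (ContDiffOn.sum fun m _ => ?_)
    · exact (ContDiffOn.sum fun l _ => (hcdθ l k).mul (csm i m l)).mul (hcdA j m)
    · exact (pd_cd (hcdθ m k) i).mul (hcdA j m)
  have hsmT : ContDiffOn ℝ (⊤ : ℕ∞) (Tm θ) {0}ᶜ := by
    unfold Tm
    exact cd_toE fun i j => by
      simp only [Matrix.transpose_apply]
      exact hcdθ j i
  -- `M_i θᵀ`
  have hMθ : ∀ i k j x, x ≠ 0 → ∑ m, Mi G A θ i x k m * θ x j m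
      = ∑ l, θ x l k * Chr G i j l x - pd i (fun y => θ y j k) x := by
    intro i k j x hx
    have e1 : ∀ F : Fin (n + 1) → ℝ, ∑ m, (∑ p, F p * A x m p) * θ x j m = F j := by
      intro F
      have : ∀ m, (∑ p, F p * A x m p) * θ x j m = ∑ p, F p * (θ x j m * A x m p) := by
        intro m
        rw [Finset.sum_mul]
        exact Finset.sum_congr rfl fun p _ => by ring
      simp_rw [this]
      rw [Finset.sum_comm]
      simp_rw [← Finset.mul_sum, hθA']
      simp
    simp_rw [Mi_entry, sub_mul]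
    rw [Finset.sum_sub_distrib, e1 (fun p => ∑ l, θ x l k * Chr G i p l x),
      e1 (fun p => pd i (fun y => θ y p k) x)]
  -- derivative of the metric
  have hdG : ∀ i j k x, x ≠ 0 → ∑ l, (pd i (fun y => θ y j l) x * θ x k l
      + θ x j l * pd i (fun y => θ y k l) x) =
      ∑ l, Chr G i j l x * G x l k + ∑ l, Chr G i k l x * G x l j := by
    intro i j k x hx
    rw [← cb i j k x hx, ← pd_sum_mul (fun l => hdθ j l x hx) (fun l => hdθ k l x hx)]
    congr 1
    funext y
    exact (hG y j k).symm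
  -- skewness
  have hskew : ∀ i x, x ≠ 0 → ∀ a b, Mi G A θ i x a b + Mi G A θ i x b a = 0 := by
    intro i x hx
    -- N_jk = ∑_ab θ_ja (M_ab + M_ba) θ_kb = 0
    have hN : ∀ j k, ∑ a, ∑ b, θ x j a * (Mi G A θ i x a b + Mi G A θ i x b a) * θ x k b = 0 := by
      intro j k
      have e1 : ∀ j k, ∑ a, ∑ b, θ x j a * Mi G A θ i x a b * θ x k b
          = ∑ l, Chr G i k l x * G x l j - ∑ a, θ x j a * pd i (fun y => θ y k a) x := by
        intro j k
        have e2 : ∀ a, ∑ b, θ x j a * Mi G A θ i x a b * θ x k b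
            = θ x j a * (∑ l, θ x l a * Chr G i k l x - pd i (fun y => θ y k a) x) := by
          intro a
          rw [← hMθ i a k x hx, Finset.mul_sum]
          exact Finset.sum_congr rfl fun b _ => by ring
        simp_rw [e2, mul_sub]
        rw [Finset.sum_sub_distrib]
        congr 1
        simp_rw [Finset.mul_sum]
        rw [Finset.sum_comm]
        refine Finset.sum_congr rfl fun l _ => ?_
        rw [hG x l j, Finset.mul_sum]
        exact Finset.sum_congr rfl fun a _ => by ring
      have e3 : ∑ a, ∑ b, θ x j a * (Mi G A θ i x a b + Mi G A θ i x b a) * θ x k b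
          = ∑ a, ∑ b, θ x j a * Mi G A θ i x a b * θ x k b
            + ∑ a, ∑ b, θ x k a * Mi G A θ i x a b * θ x j b := by
        have e4 : ∑ a, ∑ b, θ x k a * Mi G A θ i x a b * θ x j b
            = ∑ a, ∑ b, θ x k b * Mi G A θ i x b a * θ x j a := Finset.sum_comm
        rw [e4, ← Finset.sum_add_distrib]
        refine Finset.sum_congr rfl fun a _ => ?_
        rw [← Finset.sum_add_distrib]
        exact Finset.sum_congr rfl fun b _ => by ring
      rw [e3, e1 j k, e1 k j]
      have h5 := hdG i j k x hx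
      rw [Finset.sum_add_distrib] at h5
      have e6 : ∑ l, θ x k l * pd i (fun y => θ y j l) x = ∑ l, pd i (fun y => θ y j l) x * θ x k l :=
        Finset.sum_congr rfl fun l _ => mul_comm _ _
      rw [e6]
      linarith
    intro a b
    have h8 := cancel (S := Matrix.of fun a b => Mi G A θ i x a b + Mi G A θ i x b a) (h.inv x)
      (fun j k => by simpa using hN j k)
    have := congrFun (congrFun h8 a) b
    simpa using this
  refine ⟨hsmT, ?_, ?_, ?_, ?_, ?_, ?_, ?_⟩
  · -- smB
    unfold Bm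
    refine ContDiffOn.sum fun i _ => ?_
    exact contDiffOn_const.smulRight (cd_toE (hMcd i))
  · -- homT
    intro r hr x _
    unfold Tm
    congr 2
    ext i j
    exact (h.smt i j).hom r x hr
  · -- homB
    intro r hr x hx
    have hM : ∀ i k j, Mi G A θ i (r • x) k j = r⁻¹ * Mi G A θ i x k j := by
      intro i k j
      rw [Mi_entry, Mi_entry, mul_sub, Finset.mul_sum, Finset.mul_sum]
      congr 1
      · refine Finset.sum_congr rfl fun m _ => ?_
        rw [Finset.sum_mul, Finset.sum_mul, Finset.mul_sum]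
        refine Finset.sum_congr rfl fun l _ => ?_
        have e1 : θ (r • x) l k = θ x l k := (h.smt l k).hom r x hr
        have e2 : A (r • x) j m = A x j m := (h.smA j m).hom r x hr
        rw [ch i m l r x hr hx, e1, e2]; ring
      · refine Finset.sum_congr rfl fun m _ => ?_
        have e2 : A (r • x) j m = A x j m := (h.smA j m).hom r x hr
        rw [pd_hom (h.smt m k).hom i hr x, e2]; ring
    ext u v k
    rw [Bm_apply]
    have e3 : (r⁻¹ • Bm G A θ x) u v k = r⁻¹ * Bm G A θ x u v k := by simp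
    rw [e3, Bm_apply, Finset.mul_sum]
    refine Finset.sum_congr rfl fun i _ => ?_
    rw [Finset.mul_sum, Finset.mul_sum, Finset.mul_sum]
    refine Finset.sum_congr rfl fun j _ => ?_
    rw [hM]; ring
  · -- radT
    intro x hx v
    rw [innerE, innerE]
    simp_rw [Tm_apply]
    have e1 : ∀ k, (∑ j, θ x j k * x j) * (∑ j, θ x j k * v j)
        = ∑ i, ∑ j, (θ x i k * θ x j k) * (x j * v i) := by
      intro k
      rw [mul_comm, Finset.sum_mul]
      refine Finset.sum_congr rfl fun i _ => ?_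
      rw [Finset.mul_sum]
      exact Finset.sum_congr rfl fun j _ => by ring
    simp_rw [e1]
    rw [Finset.sum_comm]
    refine Finset.sum_congr rfl fun i _ => ?_
    rw [Finset.sum_comm]
    simp_rw [← Finset.sum_mul, ← hG]
    have e2 := h.met.rad x i
    calc ∑ j, G x i j * (x j * v i) = (∑ j, G x i j * x j) * v i := by
          rw [Finset.sum_mul]
          exact Finset.sum_congr rfl fun j _ => by ring
      _ = x i * v i := by rw [e2]
  · -- radB
    intro x hx
    ext v k
    rw [Bm_apply]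
    have e0 : ((0 : V (n + 1) →L[ℝ] V (n + 1)) v) k = 0 := rfl
    rw [e0]
    have e1 : ∀ k j, ∑ i, x i * Mi G A θ i x k j = 0 := by
      intro k j
      simp_rw [Mi_entry, mul_sub]
      rw [Finset.sum_sub_distrib]
      have f1 : ∑ i, x i * ∑ m, (∑ l, θ x l k * Chr G i m l x) * A x j m = 0 := by
        have g1 : ∀ i, x i * ∑ m, (∑ l, θ x l k * Chr G i m l x) * A x j m
            = ∑ m, ∑ l, (θ x l k * A x j m) * (Chr G m i l x * x i) := by
          intro i
          rw [Finset.mul_sum]
          refine Finset.sum_congr rfl fun m _ => ?_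
          rw [Finset.sum_mul, Finset.mul_sum]
          refine Finset.sum_congr rfl fun l _ => ?_
          rw [cs i m l x]; ring
        simp_rw [g1]
        rw [Finset.sum_comm]
        refine Finset.sum_eq_zero fun m _ => ?_
        rw [Finset.sum_comm]
        refine Finset.sum_eq_zero fun l _ => ?_
        rw [← Finset.mul_sum, cc m l x hx, mul_zero]
      have f2 : ∑ i, x i * ∑ m, pd i (fun y => θ y m k) x * A x j m = 0 := by
        have g1 : ∀ i, x i * ∑ m, pd i (fun y => θ y m k) x * A x j m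
            = ∑ m, A x j m * (x i * pd i (fun y => θ y m k) x) := by
          intro i
          rw [Finset.mul_sum]
          exact Finset.sum_congr rfl fun m _ => by ring
        simp_rw [g1]
        rw [Finset.sum_comm]
        refine Finset.sum_eq_zero fun m _ => ?_
        rw [← Finset.mul_sum, euler (h.smt m k) hx, mul_zero]
      rw [f1, f2, sub_zero]
    have e2 : ∑ i, x i * ∑ j, Mi G A θ i x k j * v j = ∑ j, (∑ i, x i * Mi G A θ i x k j) * v j := by
      simp_rw [Finset.mul_sum, Finset.sum_mul]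
      rw [Finset.sum_comm]
      exact Finset.sum_congr rfl fun j _ => Finset.sum_congr rfl fun i _ => by ring
    rw [e2]
    simp_rw [e1]
    simp
  · -- skew
    intro x hx u a b
    rw [innerE, innerE]
    simp_rw [Bm_apply]
    have e1 : ∀ (p q : V (n + 1)), ∑ k, (∑ i, u i * ∑ j, Mi G A θ i x k j * p j) * q k
        = ∑ i, u i * ∑ k, ∑ j, Mi G A θ i x k j * p j * q k := by
      intro p q
      simp_rw [Finset.sum_mul, Finset.mul_sum]
      rw [Finset.sum_comm]
      refine Finset.sum_congr rfl fun i _ => Finset.sum_congr rfl fun k _ => ?_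
      rw [Finset.sum_mul]
      exact Finset.sum_congr rfl fun j _ => by ring
    have e2 : ∑ k, a k * (∑ i, u i * ∑ j, Mi G A θ i x k j * b j)
        = ∑ i, u i * ∑ k, ∑ j, Mi G A θ i x k j * b j * a k := by
      rw [← e1]
      exact Finset.sum_congr rfl fun k _ => mul_comm _ _
    rw [e1, e2, ← Finset.sum_neg_distrib]
    refine Finset.sum_congr rfl fun i _ => ?_
    rw [← mul_neg]
    congr 1
    rw [Finset.sum_comm, ← Finset.sum_neg_distrib]
    refine Finset.sum_congr rfl fun k _ => ?_
    rw [← Finset.sum_neg_distrib]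
    refine Finset.sum_congr rfl fun j _ => ?_
    have e3 := hskew i x hx j k
    have e4 : Mi G A θ i x j k = - Mi G A θ i x k j := by linarith
    rw [e4]; ring
  · -- tors
    intro x hx u v
    have hdT : DifferentiableAt ℝ (Tm θ) x :=
      (hsmT.contDiffAt (isOpen_ne0.mem_nhds hx)).differentiableAt (by simp)
    have hD : ∀ (p q : V (n + 1)) (k : Fin (n + 1)), fderiv ℝ (Tm θ) x p q k
        = ∑ i, p i * ∑ j, pd i (fun y => θ y j k) x * q j := by
      intro p q k
      set L : (V (n + 1) →L[ℝ] V (n + 1)) →L[ℝ] ℝ :=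
        (EuclideanSpace.proj k : V (n + 1) →L[ℝ] ℝ).comp
          (ContinuousLinearMap.apply ℝ (V (n + 1)) q) with hL
      have h1 : HasFDerivAt (fun y => L (Tm θ y)) (L.comp (fderiv ℝ (Tm θ) x)) x :=
        L.hasFDerivAt.comp x hdT.hasFDerivAt
      have h2 : (fun y => L (Tm θ y)) = fun y => ∑ j, θ y j k * q j := by
        funext y
        exact Tm_apply y q k
      have h3 : HasFDerivAt (fun y => ∑ j, θ y j k * q j)
          (∑ j, q j • fderiv ℝ (fun y => θ y j k) x) x := by
        have := HasFDerivAt.fun_sum (u := Finset.univ) (fun j (_ : j ∈ Finset.univ) =>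
          (hdθ j k x hx).hasFDerivAt.mul_const (q j))
        exact this
      rw [h2] at h1
      have h4 := h1.unique h3
      have h5 : fderiv ℝ (Tm θ) x p q k = (L.comp (fderiv ℝ (Tm θ) x)) p := rfl
      rw [h5, h4, _root_.sum_apply]
      have h6 : ∀ j, (q j • fderiv ℝ (fun y => θ y j k) x) p
          = ∑ i, p i * (pd i (fun y => θ y j k) x * q j) := by
        intro j
        rw [_root_.smul_apply, smul_eq_mul, fderivE, Finset.mul_sum]
        exact Finset.sum_congr rfl fun i _ => by ring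
      simp_rw [h6]
      rw [Finset.sum_comm]
      refine Finset.sum_congr rfl fun i _ => ?_
      rw [Finset.mul_sum]
    have hBT : ∀ (p q : V (n + 1)) (k : Fin (n + 1)), Bm G A θ x p (Tm θ x q) k
        = ∑ i, p i * ∑ j, (∑ l, θ x l k * Chr G i j l x - pd i (fun y => θ y j k) x) * q j := by
      intro p q k
      rw [Bm_apply]
      refine Finset.sum_congr rfl fun i _ => ?_
      congr 1
      simp_rw [Tm_apply, Finset.mul_sum]
      rw [Finset.sum_comm]
      refine Finset.sum_congr rfl fun j _ => ?_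
      rw [← hMθ i k j x hx, Finset.sum_mul]
      exact Finset.sum_congr rfl fun m _ => by ring
    have hS : ∀ (p q : V (n + 1)) (k : Fin (n + 1)), fderiv ℝ (Tm θ) x p q k
        + Bm G A θ x p (Tm θ x q) k = ∑ i, ∑ j, p i * q j * ∑ l, θ x l k * Chr G i j l x := by
      intro p q k
      rw [hD, hBT, ← Finset.sum_add_distrib]
      refine Finset.sum_congr rfl fun i _ => ?_
      rw [← mul_add, ← Finset.sum_add_distrib, Finset.mul_sum]
      exact Finset.sum_congr rfl fun j _ => by ring
    ext k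
    have e1 : (fderiv ℝ (Tm θ) x u v - fderiv ℝ (Tm θ) x v u + Bm G A θ x u (Tm θ x v)
        - Bm G A θ x v (Tm θ x u)) k = (fderiv ℝ (Tm θ) x u v k + Bm G A θ x u (Tm θ x v) k)
          - (fderiv ℝ (Tm θ) x v u k + Bm G A θ x v (Tm θ x u) k) := by
      simp only [PiLp.add_apply, PiLp.sub_apply]
      ring
    rw [e1, hS, hS]
    have e2 : ∑ i, ∑ j, v i * u j * ∑ l, θ x l k * Chr G i j l x
        = ∑ i, ∑ j, u i * v j * ∑ l, θ x l k * Chr G i j l x := by
      rw [Finset.sum_comm]
      refine Finset.sum_congr rfl fun i _ => Finset.sum_congr rfl fun j _ => ?_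
      have : ∑ l, θ x l k * Chr G j i l x = ∑ l, θ x l k * Chr G i j l x :=
        Finset.sum_congr rfl fun l _ => by rw [cs]
      rw [this]; ring
    rw [e2, sub_self]
    rfl

end Pool.Agent.Helper42.RFn
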