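import Pool.Agent.Helper64.RFn.GoalsF

/-!
PROJECT RFn, packet FINn: the volume bound for almost round cone metrics, all dimensions.
-/

open MeasureTheory Set

open scoped RealInnerProductSpace

namespace Pool.Agent.Helper42.RFn

open Pool.Agent.Helper64.RFn

theorem KK_meas {m : ℕ} (e : V m) (c : ℝ) : MeasurableSet (KK e c) := by
  have h1 : MeasurableSet {x : V m | x ≠ 0} := (measurableSet_singleton (0 : V m)).compl
  have h2 : IsClosed {x : V m | -(c * ‖x‖) ≤ ⟪x, e⟫} :=
    isClosed_le (by fun_prop) (by fun_prop)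
  exact h1.inter h2.measurableSet

/-- `|det T|` is integrable on the ball. -/
theorem det_int {m : ℕ} (hm : 0 < m) {T : V m → V m →L[ℝ] V m} (hT : ContDiffOn ℝ (⊤ : ℕ∞) T {0}ᶜ) {M : ℝ}
    (hM : ∀ x, x ≠ 0 → |(T x).det| ≤ M) :
    IntegrableOn (fun x => |(T x).det|) (Metric.ball (0 : V m) 1) := by
  have hcont : ContinuousOn (fun x => |(T x).det|) {0}ᶜ := by
    have h1 : Continuous (fun A : V m →L[ℝ] V m => |A.det|) :=
      ContinuousLinearMap.continuous_det.abs
    exact h1.comp_continuousOn hT.continuousOn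
  have : Nonempty (Fin m) := ⟨⟨0, hm⟩⟩
  have : Nontrivial (V m) := inferInstance
  have hae : (Metric.ball (0 : V m) 1 \ {0} : Set (V m)) =ᵐ[volume] Metric.ball (0 : V m) 1 :=
    sdiff_null_ae_eq_self (measure_singleton 0)
  rw [← integrableOn_congr_set_ae hae]
  have hms : MeasurableSet (Metric.ball (0 : V m) 1 \ {0} : Set (V m)) :=
    measurableSet_ball.diff (measurableSet_singleton 0)
  refine IntegrableOn.of_bound (C := M) ?_ ?_ ?_
  · exact (measure_mono Set.sdiff_subset).trans_lt measure_ball_lt_top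
  · exact (hcont.mono (fun x hx => hx.2)).aestronglyMeasurable hms
  · refine (ae_restrict_iff' hms).mpr (Filter.Eventually.of_forall fun x hx => ?_)
    rw [Real.norm_eq_abs, abs_abs]
    exact hM x hx.2

/-- **FINn.** -/
theorem finn (dev : DEVn) (jac : JACn) (det : DETn) (bdr : BDRn) (nee : NEEn) (top : TOPn)
    (half : HALFn) : FINn := by
  intro m c0 C0 hm hc0 hC0
  obtain ⟨det1, det2, det3, det4⟩ := det m
  obtain ⟨δ0, ε0, hδ0, hε0, hnee⟩ := nee m c0 C0 (by omega) hc0 hC0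
  set δ : ℝ := min δ0 (1/2) with hδdef
  have hδ : 0 < δ := lt_min hδ0 (by norm_num)
  have hδ2 : δ ≤ 1/2 := min_le_right _ _
  have hδ1 : δ < 1 := hδ2.trans_lt (by norm_num)
  have hsC : 0 ≤ Real.sqrt C0 := Real.sqrt_nonneg _
  set s : ℝ := δ / (4 * (Real.sqrt C0 + 1)) with hs
  have hs0 : 0 < s := by positivity
  have hs1 : s ≤ 1/8 := by
    rw [hs, div_le_iff₀ (by positivity)]
    nlinarith
  have hsδ : 4 * s * (Real.sqrt C0 + 1) = δ := by
    rw [hs]; field_simp
  set c : ℝ := Real.sqrt (1 - s ^ 2) with hc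
  have h1s : 0 < 1 - s ^ 2 := by nlinarith
  have hc00 : 0 < c := Real.sqrt_pos.mpr h1s
  have hc2 : c ^ 2 = 1 - s ^ 2 := Real.sq_sqrt h1s.le
  have hc1 : c < 1 := by nlinarith [pow_pos hs0 2]
  have hsc : Real.sqrt (1 - c ^ 2) = s := by
    rw [hc2]
    have : 1 - (1 - s ^ 2) = s ^ 2 := by ring
    rw [this, Real.sqrt_sq hs0.le]
  set c' : ℝ := (1 + c) / 2 with hc'
  have hcc' : c < c' := by rw [hc']; linarith
  have hc'1 : c' < 1 := by rw [hc']; linarith
  have hc'0 : 0 < c' := hc00.trans hcc'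
  have hk : 0 < Real.sqrt c0 ^ m := pow_pos (Real.sqrt_pos.mpr hc0) m
  set μ : ℝ := min (1/4) (Real.sqrt c0 ^ m / 2) with hμ
  have hμ0 : 0 < μ := lt_min (by norm_num) (by positivity)
  obtain ⟨ε1, hε1, hdet1⟩ := det1 (Real.sqrt C0) μ hμ0
  set ε : ℝ := min 1 (min ε0 ε1) with hε
  have hεp : 0 < ε := lt_min one_pos (lt_min hε0 hε1)
  have hεl1 : ε ≤ 1 := min_le_left _ _
  have hεl2 : ε ≤ ε0 := (min_le_right _ _).trans (min_le_left _ _)
  have hεl3 : ε ≤ ε1 := (min_le_right _ _).trans (min_le_right _ _)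
  have h1c : 0 < 1 - c' := by linarith
  refine ⟨(1 - c') / 96 * ε, by positivity, ?_⟩
  intro T B hB
  have hη : 96 / (1 - c') * ((1 - c') / 96 * ε) = ε := by field_simp
  -- two orthonormal vectors
  set i0 : Fin m := ⟨0, by omega⟩
  set i1 : Fin m := ⟨1, by omega⟩
  have hi01 : i0 ≠ i1 := by
    intro h
    have := congrArg Fin.val h
    simp [i0, i1] at this
  set e : V m := EuclideanSpace.single i0 1 with he
  set e1 : V m := EuclideanSpace.single i1 1 with he1
  have hen : ‖e‖ = 1 := by simp [he]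
  have he1n : ‖e1‖ = 1 := by simp [he1]
  have hee1 : ⟪e, e1⟫ = 0 := by
    rw [he, he1, EuclideanSpace.inner_single_left]
    simp [hi01]
  have hee1' : ⟪e1, e⟫ = 0 := by rw [real_inner_comm]; exact hee1
  have hee : ⟪e, e⟫ = 1 := by rw [real_inner_self_eq_norm_sq, hen]; norm_num
  have he1e1 : ⟪e1, e1⟫ = 1 := by rw [real_inner_self_eq_norm_sq, he1n]; norm_num
  obtain ⟨P, hD⟩ := dev m c' hc'0 hc'1 e hen T B ((1 - c') / 96 * ε) (by positivity) hB.cone hB.curv
  rw [hη] at hD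
  obtain ⟨hF0, hF1⟩ := jac m e c' ε T B P hB.cone hD
  have hKK : ∀ x ∈ KK e c, x ≠ 0 ∧ -(c' * ‖x‖) < ⟪x, e⟫ := by
    rintro x ⟨hx0, hx⟩
    refine ⟨hx0, lt_of_lt_of_le ?_ hx⟩
    have : 0 < ‖x‖ := norm_pos_iff.mpr hx0
    nlinarith
  have hdd : ∀ x ∈ KK e c, |(|(fderiv ℝ (FF T P) x).det| - |(T x).det|)| ≤ μ := by
    intro x hx
    obtain ⟨hx0, hx1⟩ := hKK x hx
    have h1 := (hF1 x hx0 hx1).2
    have hn : ‖(ContinuousLinearMap.adjoint (P (‖x‖⁻¹ • x))).comp (T x)‖ ≤ Real.sqrt C0 := by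
      refine ContinuousLinearMap.opNorm_le_bound _ hsC fun v => ?_
      rw [ContinuousLinearMap.comp_apply]
      have h2 : ‖ContinuousLinearMap.adjoint (P (‖x‖⁻¹ • x))‖ ≤ 1 := by
        rw [LinearIsometryEquiv.norm_map]
        refine ContinuousLinearMap.opNorm_le_bound _ zero_le_one fun v => ?_
        have h3 := hD.orth (‖x‖⁻¹ • x) v v
        rw [real_inner_self_eq_norm_sq, real_inner_self_eq_norm_sq] at h3
        rw [one_mul]
        exact (sq_le_sq₀ (norm_nonneg _) (norm_nonneg _)).1 h3.le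
      have h4 : ‖T x v‖ ≤ Real.sqrt C0 * ‖v‖ := by
        have h5 := hB.upper x hx0 v
        have h6 : Real.sqrt (‖T x v‖ ^ 2) ≤ Real.sqrt (C0 * ‖v‖ ^ 2) := Real.sqrt_le_sqrt h5
        rwa [Real.sqrt_sq (norm_nonneg _), Real.sqrt_mul hC0.le, Real.sqrt_sq (norm_nonneg _)] at h6
      calc ‖ContinuousLinearMap.adjoint (P (‖x‖⁻¹ • x)) (T x v)‖
          ≤ ‖ContinuousLinearMap.adjoint (P (‖x‖⁻¹ • x))‖ * ‖T x v‖ :=
            ContinuousLinearMap.le_opNorm _ _
        _ ≤ 1 * (Real.sqrt C0 * ‖v‖) := mul_le_mul h2 h4 (norm_nonneg _) zero_le_one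
        _ = Real.sqrt C0 * ‖v‖ := one_mul _
    have h2 := hdet1 ((ContinuousLinearMap.adjoint (P (‖x‖⁻¹ • x))).comp (T x))
      (fderiv ℝ (FF T P) x) hn (fun v => by
        rw [ContinuousLinearMap.comp_apply]
        exact (h1 v).trans (mul_le_mul_of_nonneg_right hεl3 (norm_nonneg _)))
    have h3 := det2 (P (‖x‖⁻¹ • x)) (T x) (hD.orth _)
    rw [← h3]
    exact (abs_abs_sub_abs_le _ _).trans h2
  have hdet : ∀ x ∈ KK e c, (fderiv ℝ (FF T P) x).det ≠ 0 := by
    intro x hx h0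
    have h1 := hdd x hx
    have h2 := det4 (T x) c0 hc0 (hB.lower x (hKK x hx).1)
    rw [h0, abs_zero, zero_sub, abs_neg, abs_abs] at h1
    have h3 : μ ≤ Real.sqrt c0 ^ m / 2 := min_le_right _ _
    linarith
  have hopen : ∀ x ∈ KK e c, nhds (FF T P x) ≤ Filter.map (FF T P) (nhds x) := by
    intro x hx
    obtain ⟨hx0, hx1⟩ := hKK x hx
    have h1 : HasStrictFDerivAt (FF T P) (fderiv ℝ (FF T P) x) x :=
      (hF1 x hx0 hx1).1.hasStrictFDerivAt (by simp)
    rw [← ContinuousLinearMap.coe_toContinuousLinearEquivOfDetNeZero _ (hdet x hx)] at h1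
    exact h1.map_nhds_eq_of_equiv.ge
  -- the base point
  set x0 : V m := (-c) • e + s • e1 with hx0def
  have hx0e : ⟪x0, e⟫ = -c := by
    rw [hx0def, inner_add_left, inner_smul_left, inner_smul_left, hee, hee1']
    simp
  have hx0n : ‖x0‖ = 1 := by
    have h1 : ⟪x0, x0⟫ = 1 := by
      rw [hx0def]
      simp only [inner_add_left, inner_add_right, inner_smul_left, inner_smul_right, hee, hee1,
        hee1', he1e1]
      simp
      nlinarith
    rw [real_inner_self_eq_norm_sq] at h1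
    have h2 : (0:ℝ) ≤ ‖x0‖ := norm_nonneg _
    nlinarith
  have hx00 : x0 ≠ 0 := by
    intro h
    rw [h, norm_zero] at hx0n
    exact zero_ne_one hx0n
  set y0 : V m := FF T P x0 with hy0def
  have hy0 : ‖y0‖ = 1 := by rw [hy0def, (hF0 x0 hx00).1, hx0n]
  have hcover := top m (FF T P) e y0 c δ hδ hδ1 hy0
    (fun x hx r hr => (hF0 x hx.1).2 r hr) (fun x hx => (hF0 x hx.1).1)
    (fun x hx => (hF1 x (hKK x hx).1 (hKK x hx).2).1.continuousAt.continuousWithinAt)
    (fun x hx _ => hopen x hx)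
    (by
      intro x hx hn hb
      rw [hn, mul_one] at hb
      have h1 := bdr m e c c' C0 ε T B P hm hen hc00 hcc' hc1 hεp.le hC0.le hB.cone hB.upper hD
        x x0 hn hx0n hb.symm hx0e
      rw [hsc] at h1
      refine h1.trans ?_
      rw [← hsδ]
      refine mul_le_mul_of_nonneg_left (by linarith) (by positivity))
    (by
      obtain ⟨x1, hx1, hx1n, hx1'⟩ := hnee e c' ε T B P hen hc'0 hεp.le hεl2 hB.cone
        (fun x hx v => ⟨hB.lower x hx v, hB.upper x hx v⟩) hD y0 hy0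
      refine ⟨x1, ⟨hx1.1, ?_⟩, hx1n, (min_le_left _ _).trans_lt hx1'⟩
      have h1 := hx1.2
      rw [zero_mul, neg_zero] at h1
      refine le_trans ?_ h1
      rw [hx1n]; linarith)
  -- measure estimate
  set Bl : Set (V m) := Metric.ball (0 : V m) 1 with hBl
  set S : Set (V m) := KK e c ∩ Bl with hS
  have hSm : MeasurableSet S := (KK_meas e c).inter measurableSet_ball
  have hsub : {y : V m | y ∈ Metric.ball (0 : V m) 1 ∧ y ≠ 0 ∧ δ < ‖‖y‖⁻¹ • y - y0‖} ⊆
      FF T P '' S := by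
    rintro y ⟨hy1, hy2, hy3⟩
    obtain ⟨x, hx, rfl⟩ := hcover y hy2 hy3
    refine ⟨x, ⟨hx, ?_⟩, rfl⟩
    rw [mem_ball_zero_iff] at hy1
    rw [hBl, mem_ball_zero_iff]
    rwa [(hF0 x hx.1).1] at hy1
  have hint : IntegrableOn (fun x => |(T x).det|) Bl :=
    det_int (by omega) hB.cone.smT (M := Real.sqrt C0 ^ m) fun x hx => det3 (T x) C0 hC0.le (hB.upper x hx)
  have hvb : volume Bl ≠ ⊤ := measure_ball_lt_top.ne
  have hmain : volume Bl ≤ 2 * (ENNReal.ofReal (∫ x in Bl, |(T x).det|) +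
      ENNReal.ofReal (1 / 4) * volume Bl) := by
    calc volume Bl ≤ 2 * volume {y : V m | y ∈ Metric.ball (0 : V m) 1 ∧ y ≠ 0 ∧
          δ < ‖‖y‖⁻¹ • y - y0‖} := half m δ y0 (by omega) hδ hδ1 hy0
      _ ≤ 2 * volume (FF T P '' S) := by gcongr
      _ ≤ 2 * ∫⁻ x in S, ENNReal.ofReal |(fderiv ℝ (FF T P) x).det| := by
          gcongr
          refine addHaar_image_le_lintegral_abs_det_fderiv volume hSm (fun x hx => ?_)
          obtain ⟨hx0, hx1⟩ := hKK x hx.1
          exact ((hF1 x hx0 hx1).1.differentiableAt (by simp)).hasFDerivAt.hasFDerivWithinAt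
      _ ≤ 2 * ∫⁻ x in S, (ENNReal.ofReal |(T x).det| + ENNReal.ofReal (1 / 4)) := by
          refine mul_le_mul_right (setLIntegral_mono' hSm fun x hx => ?_) 2
          rw [← ENNReal.ofReal_add (abs_nonneg _) (by norm_num)]
          apply ENNReal.ofReal_le_ofReal
          have h1 := hdd x hx.1
          have h2 := (abs_le.mp h1).2
          have h3 : μ ≤ 1/4 := min_le_left _ _
          linarith
      _ ≤ 2 * ∫⁻ x in Bl, (ENNReal.ofReal |(T x).det| + ENNReal.ofReal (1 / 4)) := by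
          refine mul_le_mul_right (lintegral_mono_set Set.inter_subset_right) 2
      _ = 2 * (ENNReal.ofReal (∫ x in Bl, |(T x).det|) + ENNReal.ofReal (1 / 4) * volume Bl) := by
          congr 1
          rw [lintegral_add_right _ measurable_const, setLIntegral_const,
            ofReal_integral_eq_lintegral_ofReal hint
              (Filter.Eventually.of_forall fun x => abs_nonneg _)]
  have hI0 : 0 ≤ ∫ x in Bl, |(T x).det| :=
    integral_nonneg fun x => abs_nonneg _
  have hreal := ENNReal.toReal_mono (by finiteness) hmain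
  rw [ENNReal.toReal_mul, ENNReal.toReal_add (by finiteness) (by finiteness), ENNReal.toReal_mul,
    ENNReal.toReal_ofReal hI0, ENNReal.toReal_ofReal (by norm_num)] at hreal
  have h2 : (2 : ENNReal).toReal = 2 := by simp
  rw [h2] at hreal
  linarith

end Pool.Agent.Helper42.RFn
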