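import Pool.Agent.Helper47.RFn.GoalsC

/-!
Packet RFn-GEO of project RFn (MP_c98eff_gt): the curvature in the moving frame, all dimensions.
-/

namespace Pool.Agent.Helper47.RFn

open Finset

namespace Geo42

variable {n : ℕ} {𝒜 : Type} [CommRing 𝒜] [Algebra ℝ 𝒜]

/-- entrywise derivative of a matrix -/
def dm (D : Derivation ℝ 𝒜 𝒜) (M : Matrix (Ix n) (Ix n) 𝒜) : Matrix (Ix n) (Ix n) 𝒜 :=
  M.map D

theorem dm_apply (D : Derivation ℝ 𝒜 𝒜) (M : Matrix (Ix n) (Ix n) 𝒜) (i j : Ix n) :
    dm D M i j = D (M i j) := rfl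

theorem dm_mul (D : Derivation ℝ 𝒜 𝒜) (M N : Matrix (Ix n) (Ix n) 𝒜) :
    dm D (M * N) = dm D M * N + M * dm D N := by
  ext i j
  simp only [dm_apply, Matrix.mul_apply, Matrix.add_apply, map_sum, Derivation.leibniz,
    smul_eq_mul]
  rw [← Finset.sum_add_distrib]
  exact Finset.sum_congr rfl (fun k _ => by ring)

theorem dm_sub (D : Derivation ℝ 𝒜 𝒜) (M N : Matrix (Ix n) (Ix n) 𝒜) :
    dm D (M - N) = dm D M - dm D N := by
  ext i j
  simp [dm_apply]

/-- the frame fields as derivations -/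
noncomputable def FD (e : Ix n → Derivation ℝ 𝒜 𝒜) (A : Ix n → Ix n → 𝒜) (a : Ix n) :
    Derivation ℝ 𝒜 𝒜 := ∑ i, A a i • e i

theorem FD_apply (e : Ix n → Derivation ℝ 𝒜 𝒜) (A : Ix n → Ix n → 𝒜) (a : Ix n) (f : 𝒜) :
    FD e A a f = FR.Fd e A a f := by
  have h := congrFun (map_sum (Derivation.coeFnAddMonoidHom : Derivation ℝ 𝒜 𝒜 →+ _)
    (fun i => A a i • e i) Finset.univ) f
  rw [Finset.sum_apply] at h
  exact h

/-- gauge transformation of the curvature, abstract form -/
theorem gauge (F : Ix n → Derivation ℝ 𝒜 𝒜) (A : Matrix (Ix n) (Ix n) 𝒜)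
    (G K : Ix n → Matrix (Ix n) (Ix n) 𝒜) (C : Ix n → Ix n → Ix n → 𝒜)
    (hA : ∀ a, dm (F a) A = G a * A - A * K a)
    (hC : ∀ c d, dm (F c) (dm (F d) A) - dm (F d) (dm (F c) A)
      = ∑ e, C c d e • dm (F e) A) (c d : Ix n) :
    A * (dm (F c) (K d) - dm (F d) (K c) + K d * K c - K c * K d - ∑ e, C c d e • K e)
      = (dm (F c) (G d) - dm (F d) (G c) + G d * G c - G c * G d - ∑ e, C c d e • G e) * A := by
  have h1 : ∀ a b, dm (F a) (dm (F b) A) = dm (F a) (G b) * A + G b * (G a * A - A * K a)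
      - ((G a * A - A * K a) * K b + A * dm (F a) (K b)) := by
    intro a b
    rw [hA b, dm_sub, dm_mul, dm_mul, hA a]
  have h2 := hC c d
  rw [h1, h1] at h2
  have h3 : ∑ e, C c d e • dm (F e) A = (∑ e, C c d e • G e) * A - A * ∑ e, C c d e • K e := by
    rw [Finset.sum_mul, Finset.mul_sum, ← Finset.sum_sub_distrib]
    refine Finset.sum_congr rfl (fun e _ => ?_)
    rw [hA e, smul_sub, Matrix.smul_mul, Matrix.mul_smul]
  rw [h3] at h2
  have h4 : A * (dm (F c) (K d) - dm (F d) (K c) + K d * K c - K c * K d - ∑ e, C c d e • K e)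
      - (dm (F c) (G d) - dm (F d) (G c) + G d * G c - G c * G d - ∑ e, C c d e • G e) * A
      = - ((dm (F c) (G d) * A + G d * (G c * A - A * K c)
      - ((G c * A - A * K c) * K d + A * dm (F c) (K d)))
      - (dm (F d) (G c) * A + G c * (G d * A - A * K d)
      - ((G d * A - A * K d) * K c + A * dm (F d) (K c)))
      - ((∑ e, C c d e • G e) * A - A * ∑ e, C c d e • K e)) := by
    noncomm_ring
  rw [h2, sub_self, neg_zero] at h4
  exact sub_eq_zero.mp h4

/-- connection matrices of Koszul in the frame directions -/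
noncomputable def Km (e : Ix n → Derivation ℝ 𝒜 𝒜) (n0 : Ix n → 𝒜) (A θ : Ix n → Ix n → 𝒜) (a : Ix n) :
    Matrix (Ix n) (Ix n) 𝒜 := Matrix.of fun j l => ∑ i, A a i * FR.KE e n0 A θ i j l

/-- connection matrices in the moving frame -/
noncomputable def Gm (e : Ix n → Derivation ℝ 𝒜 𝒜) (n0 : Ix n → 𝒜) (A θ : Ix n → Ix n → 𝒜) (a : Ix n) :
    Matrix (Ix n) (Ix n) 𝒜 := Matrix.of fun b c => FR.Gam e n0 A θ a b c

variable {e : Ix n → Derivation ℝ 𝒜 𝒜} {n0 : Ix n → 𝒜} {A θ : Ix n → Ix n → 𝒜}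

theorem C_mul (h : FrameHyp e n0 A θ) (c d j : Ix n) : ∑ f, FR.C e n0 A θ c d f * A f j =
      FR.Fd e A c (A d j) - FR.Fd e A d (A c j)
        + (FR.nf n0 A c * A d j - FR.nf n0 A d * A c j) := by
  unfold FR.C
  simp_rw [add_mul]
  rw [Finset.sum_add_distrib]
  congr 1
  · have e1 : ∀ f, (∑ m, (FR.Fd e A c (A d m) - FR.Fd e A d (A c m)) * θ m f) * A f j
        = ∑ m, (FR.Fd e A c (A d m) - FR.Fd e A d (A c m)) * (θ m f * A f j) := by
      intro f
      rw [Finset.sum_mul]
      exact Finset.sum_congr rfl fun m _ => by ring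
    simp_rw [e1]
    rw [Finset.sum_comm]
    simp_rw [← Finset.mul_sum, h.tA]
    simp
  · simp [sub_mul, Finset.sum_sub_distrib]

theorem Rh_eq (h : FrameHyp e n0 A θ) (c d k l : Ix n) :
    (dm (FD e A c) (Km e n0 A θ d) - dm (FD e A d) (Km e n0 A θ c) + Km e n0 A θ d * Km e n0 A θ c
      - Km e n0 A θ c * Km e n0 A θ d - ∑ f, FR.C e n0 A θ c d f • Km e n0 A θ f) k l
      = ∑ i, ∑ j, A c i * A d j * FR.RE e n0 A θ i j k l := by
  have h1 : (∑ f, FR.C e n0 A θ c d f • Km e n0 A θ f) k l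
      = ∑ j, (FR.Fd e A c (A d j) - FR.Fd e A d (A c j)
        + (FR.nf n0 A c * A d j - FR.nf n0 A d * A c j)) * FR.KE e n0 A θ j k l := by
    simp only [← C_mul h]
    rw [Matrix.sum_apply]
    simp only [Matrix.smul_apply, Km, Matrix.of_apply, smul_eq_mul, Finset.mul_sum,
      Finset.sum_mul]
    rw [Finset.sum_comm]
    exact Finset.sum_congr rfl (fun m _ => Finset.sum_congr rfl (fun f _ => by ring))
  simp only [Matrix.sub_apply, Matrix.add_apply, h1]
  simp only [dm_apply, FD_apply, Matrix.mul_apply, Km, Matrix.of_apply, FR.RE]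
  generalize FR.KE e n0 A θ = κ
  -- derivative terms
  have hd : ∀ a b, FR.Fd e A a (∑ i, A b i * κ i k l)
      = ∑ j, FR.Fd e A a (A b j) * κ j k l + ∑ i, ∑ j, A a i * A b j * e i (κ j k l) := by
    intro a b
    unfold FR.Fd
    simp only [map_sum, Derivation.leibniz, smul_eq_mul, Finset.sum_mul, Finset.mul_sum]
    rw [Finset.sum_comm (f := fun j i => A a i * e i (A b j) * κ j k l), ← Finset.sum_add_distrib]
    refine Finset.sum_congr rfl fun i _ => ?_
    rw [← Finset.sum_add_distrib]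
    exact Finset.sum_congr rfl fun j _ => by ring
  rw [hd c d, hd d c]
  have hq : ∀ a b, ∑ m, (∑ i, A a i * κ i k m) * (∑ i, A b i * κ i m l)
      = ∑ i, ∑ j, A a i * A b j * ∑ m, κ i k m * κ j m l := by
    intro a b
    simp_rw [Finset.sum_mul_sum]
    rw [Finset.sum_comm]
    refine Finset.sum_congr rfl fun i _ => ?_
    rw [Finset.sum_comm]
    refine Finset.sum_congr rfl fun j _ => ?_
    rw [Finset.mul_sum]
    exact Finset.sum_congr rfl fun m _ => by ring
  rw [hq d c, hq c d]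
  have hs : ∀ T : Ix n → Ix n → 𝒜, ∑ i, ∑ j, A d i * A c j * T i j
      = ∑ i, ∑ j, A c i * A d j * T j i := by
    intro T
    rw [Finset.sum_comm]
    exact Finset.sum_congr rfl fun i _ => Finset.sum_congr rfl fun j _ => by ring
  rw [hs (fun i j => e i (κ j k l)), hs (fun i j => ∑ m, κ i k m * κ j m l)]
  have hn : ∑ j, (FR.Fd e A c (A d j) - FR.Fd e A d (A c j)
        + (FR.nf n0 A c * A d j - FR.nf n0 A d * A c j)) * κ j k l
      = ∑ j, FR.Fd e A c (A d j) * κ j k l - ∑ j, FR.Fd e A d (A c j) * κ j k l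
        + ∑ i, ∑ j, A c i * A d j * (n0 i * κ j k l - n0 j * κ i k l) := by
    have f1 : ∑ i, ∑ j, A c i * A d j * (n0 i * κ j k l - n0 j * κ i k l)
        = ∑ j, FR.nf n0 A c * A d j * κ j k l - ∑ j, FR.nf n0 A d * A c j * κ j k l := by
      simp only [mul_sub, Finset.sum_sub_distrib]
      congr 1
      · rw [Finset.sum_comm]
        refine Finset.sum_congr rfl fun j _ => ?_
        unfold FR.nf
        rw [Finset.sum_mul, Finset.sum_mul]
        exact Finset.sum_congr rfl fun i _ => by ring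
      · refine Finset.sum_congr rfl fun i _ => ?_
        unfold FR.nf
        rw [Finset.sum_mul, Finset.sum_mul]
        exact Finset.sum_congr rfl fun j _ => by ring
    rw [f1, ← Finset.sum_sub_distrib, ← Finset.sum_sub_distrib, ← Finset.sum_add_distrib]
    exact Finset.sum_congr rfl fun j _ => by ring
  rw [hn]
  have hr : ∑ i, ∑ j, A c i * A d j * (e i (κ j k l) - e j (κ i k l)
      + ∑ m, (κ j k m * κ i m l - κ i k m * κ j m l) - (n0 i * κ j k l - n0 j * κ i k l))
      = ∑ i, ∑ j, A c i * A d j * e i (κ j k l) - ∑ i, ∑ j, A c i * A d j * e j (κ i k l)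
        + (∑ i, ∑ j, A c i * A d j * ∑ m, κ j k m * κ i m l
          - ∑ i, ∑ j, A c i * A d j * ∑ m, κ i k m * κ j m l)
        - ∑ i, ∑ j, A c i * A d j * (n0 i * κ j k l - n0 j * κ i k l) := by
    simp only [← Finset.sum_sub_distrib, ← Finset.sum_add_distrib]
    refine Finset.sum_congr rfl fun i _ => Finset.sum_congr rfl fun j _ => ?_
    rw [Finset.sum_sub_distrib]
    ring
  rw [hr]
  ring

theorem Gh_eq (c d b f : Ix n) :
    (dm (FD e A c) (Gm e n0 A θ d) - dm (FD e A d) (Gm e n0 A θ c) + Gm e n0 A θ d * Gm e n0 A θ c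
      - Gm e n0 A θ c * Gm e n0 A θ d - ∑ h, FR.C e n0 A θ c d h • Gm e n0 A θ h) b f
      = FR.K e n0 A θ c d b f := by
  simp only [Matrix.sub_apply, Matrix.add_apply, Matrix.sum_apply, Matrix.smul_apply, dm_apply,
    FD_apply, Matrix.mul_apply, Gm, Matrix.of_apply, smul_eq_mul, FR.K, Finset.sum_sub_distrib]
  ring

theorem hAm (hL : ∀ a b l, FR.Fd e A a (A b l) + ∑ i, ∑ j, A a i * A b j * FR.KE e n0 A θ i j l
      = ∑ c, FR.Gam e n0 A θ a b c * A c l) (a : Ix n) :
    dm (FD e A a) (Matrix.of A) = Gm e n0 A θ a * Matrix.of A - Matrix.of A * Km e n0 A θ a := by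
  ext b l
  simp only [dm_apply, FD_apply, Matrix.sub_apply, Matrix.mul_apply, Gm, Km, Matrix.of_apply]
  rw [← hL a b l, eq_sub_iff_add_eq]
  congr 1
  rw [Finset.sum_comm]
  refine Finset.sum_congr rfl (fun j _ => ?_)
  rw [Finset.mul_sum]
  exact Finset.sum_congr rfl (fun i _ => by ring)

theorem hCm (hF : ∀ a b f, FR.Fd e A a (FR.Fd e A b f) - FR.Fd e A b (FR.Fd e A a f)
      = ∑ c, FR.C e n0 A θ a b c * FR.Fd e A c f) (c d : Ix n) :
    dm (FD e A c) (dm (FD e A d) (Matrix.of A)) - dm (FD e A d) (dm (FD e A c) (Matrix.of A))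
      = ∑ f, FR.C e n0 A θ c d f • dm (FD e A f) (Matrix.of A) := by
  ext b l
  rw [Matrix.sum_apply]
  simp only [dm_apply, FD_apply, Matrix.sub_apply, Matrix.smul_apply, Matrix.of_apply,
    smul_eq_mul]
  exact hF c d (A b l)

/-- first Bianchi identity in the frame `e` -/
theorem bianchi (h : FrameHyp e n0 A θ) (hκ : ∀ i j k, FR.KE e n0 A θ i j k - FR.KE e n0 A θ j i k
    = n0 i * (if j = k then 1 else 0) - n0 j * (if i = k then 1 else 0)) (i j k l : Ix n) :
    FR.RE e n0 A θ i j k l + FR.RE e n0 A θ j k i l + FR.RE e n0 A θ k i j l = 0 := by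
  simp only [FR.RE]
  revert hκ
  generalize FR.KE e n0 A θ = κ
  intro hκ
  have hq : ∑ m, (κ j k m * κ i m l - κ i k m * κ j m l) + ∑ m, (κ k i m * κ j m l - κ j i m * κ k m l)
      + ∑ m, (κ i j m * κ k m l - κ k j m * κ i m l)
      = (n0 j * κ i k l - n0 k * κ i j l) + (n0 k * κ j i l - n0 i * κ j k l)
        + (n0 i * κ k j l - n0 j * κ k i l) := by
    have f1 : ∀ p q r, ∑ m, (κ p q m - κ q p m) * κ r m l = n0 p * κ r q l - n0 q * κ r p l := by
      intro p q r
      simp_rw [hκ, sub_mul]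
      rw [Finset.sum_sub_distrib]
      simp
    rw [← f1 j k i, ← f1 k i j, ← f1 i j k, ← Finset.sum_add_distrib, ← Finset.sum_add_distrib,
      ← Finset.sum_add_distrib, ← Finset.sum_add_distrib]
    exact Finset.sum_congr rfl fun m _ => by ring
  have hd : ∀ p q r, e r (κ p q l) - e r (κ q p l)
      = ((if r = p then 1 else 0) - n0 r * n0 p) * (if q = l then 1 else 0)
        - ((if r = q then 1 else 0) - n0 r * n0 q) * (if p = l then 1 else 0) := by
    intro p q r
    rw [← map_sub, hκ, map_sub, ← h.en, ← h.en]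
    have f2 : ∀ (P : Prop) [Decidable P] (x : 𝒜), e r (x * (if P then 1 else 0))
        = e r x * (if P then 1 else 0) := by
      intro P _ x
      split_ifs <;> simp
    rw [f2, f2]
  have e1 := hd j k i
  have e2 := hd k i j
  have e3 := hd i j k
  have k1 := hκ j k l
  have k2 := hκ k i l
  have k3 := hκ i j l
  have s1 : (if j = i then (1:𝒜) else 0) = if i = j then 1 else 0 := by simp [eq_comm]
  have s2 : (if k = i then (1:𝒜) else 0) = if i = k then 1 else 0 := by simp [eq_comm]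
  have s3 : (if k = j then (1:𝒜) else 0) = if j = k then 1 else 0 := by simp [eq_comm]
  rw [s1] at e2
  rw [s2, s3] at e3
  linear_combination hq + e1 + e2 + e3 - 2 * n0 i * k1 - 2 * n0 j * k2 - 2 * n0 k * k3

end Geo42

theorem goal_GEO (hFRA : Goal_FRA) (hLCR : Goal_LCR) : Goal_GEO := by
  intro n 𝒜 _ _ e n0 A θ h
  obtain ⟨f1, -⟩ := hFRA n 𝒜 e n0 A θ h
  obtain ⟨l1, -, l3, l4⟩ := hLCR n 𝒜 e n0 A θ h
  have g1 : ∀ c d b l, ∑ i, ∑ j, ∑ k, A c i * A d j * A b k * FR.RE e n0 A θ i j k l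
      = ∑ f, FR.K e n0 A θ c d b f * A f l := by
    intro c d b l
    have e0 := Geo42.gauge (Geo42.FD e A) (Matrix.of A) (Geo42.Gm e n0 A θ) (Geo42.Km e n0 A θ)
      (FR.C e n0 A θ) (Geo42.hAm l1) (Geo42.hCm f1) c d
    have e2 := congrFun (congrFun e0 b) l
    rw [Matrix.mul_apply, Matrix.mul_apply] at e2
    simp only [Geo42.Rh_eq h, Geo42.Gh_eq, Matrix.of_apply] at e2
    rw [← e2]
    have : ∀ i, ∑ j, ∑ k, A c i * A d j * A b k * FR.RE e n0 A θ i j k l
        = ∑ k, ∑ j, A c i * A d j * A b k * FR.RE e n0 A θ i j k l := fun i => Finset.sum_comm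
    simp only [this]
    rw [Finset.sum_comm]
    refine Finset.sum_congr rfl (fun k _ => ?_)
    rw [Finset.mul_sum]
    refine Finset.sum_congr rfl (fun i _ => ?_)
    rw [Finset.mul_sum]
    exact Finset.sum_congr rfl (fun j _ => by ring)
  refine ⟨g1, ?_, ?_⟩
  · intro c d b f
    have e1 : ∑ i, ∑ j, ∑ k, ∑ l, A c i * A d j * A b k * A f l
        * (∑ m, FR.RE e n0 A θ i j k m * FR.g θ m l)
        = ∑ m, (∑ i, ∑ j, ∑ k, A c i * A d j * A b k * FR.RE e n0 A θ i j k m)
          * (∑ l, FR.g θ m l * A f l) := by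
      simp only [Finset.sum_mul]
      conv_rhs => rw [Finset.sum_comm]
      refine Finset.sum_congr rfl fun i _ => ?_
      conv_rhs => rw [Finset.sum_comm]
      refine Finset.sum_congr rfl fun j _ => ?_
      conv_rhs => rw [Finset.sum_comm]
      refine Finset.sum_congr rfl fun k _ => ?_
      simp only [Finset.mul_sum]
      rw [Finset.sum_comm]
      exact Finset.sum_congr rfl fun m _ => Finset.sum_congr rfl fun l _ => by ring
    rw [e1]
    simp only [g1]
    have e2 : ∑ m, (∑ f', FR.K e n0 A θ c d b f' * A f' m) * (∑ l, FR.g θ m l * A f l)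
        = ∑ f', FR.K e n0 A θ c d b f' * ∑ m, ∑ l, A f' m * FR.g θ m l * A f l := by
      simp_rw [Finset.sum_mul_sum, Finset.mul_sum]
      rw [Finset.sum_comm]
      exact Finset.sum_congr rfl fun f' _ => Finset.sum_congr rfl fun m _ =>
        Finset.sum_congr rfl fun l _ => by ring
    rw [e2]
    simp only [l3]
    simp
  · intro a b c d
    have e1 : ∀ l, ∑ f, (FR.K e n0 A θ a b c f + FR.K e n0 A θ b c a f + FR.K e n0 A θ c a b f) * A f l
        = 0 := by
      intro l
      have e2 : ∑ f, (FR.K e n0 A θ a b c f + FR.K e n0 A θ b c a f + FR.K e n0 A θ c a b f) * A f l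
          = ∑ f, FR.K e n0 A θ a b c f * A f l + ∑ f, FR.K e n0 A θ b c a f * A f l
            + ∑ f, FR.K e n0 A θ c a b f * A f l := by
        rw [← Finset.sum_add_distrib, ← Finset.sum_add_distrib]
        exact Finset.sum_congr rfl fun f _ => by ring
      rw [e2, ← g1, ← g1, ← g1]
      have e3 : ∑ i, ∑ j, ∑ k, A b i * A c j * A a k * FR.RE e n0 A θ i j k l
          = ∑ i, ∑ j, ∑ k, A a i * A b j * A c k * FR.RE e n0 A θ j k i l := by
        have : ∀ i, ∑ j, ∑ k, A b i * A c j * A a k * FR.RE e n0 A θ i j k l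
            = ∑ k, ∑ j, A b i * A c j * A a k * FR.RE e n0 A θ i j k l := fun i => Finset.sum_comm
        simp only [this]
        rw [Finset.sum_comm]
        exact Finset.sum_congr rfl fun k _ => Finset.sum_congr rfl fun i _ =>
          Finset.sum_congr rfl fun j _ => by ring
      have e4 : ∑ i, ∑ j, ∑ k, A c i * A a j * A b k * FR.RE e n0 A θ i j k l
          = ∑ i, ∑ j, ∑ k, A a i * A b j * A c k * FR.RE e n0 A θ k i j l := by
        rw [Finset.sum_comm]
        refine Finset.sum_congr rfl fun j _ => ?_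
        rw [Finset.sum_comm]
        exact Finset.sum_congr rfl fun k _ => Finset.sum_congr rfl fun i _ => by ring
      rw [e3, e4, ← Finset.sum_add_distrib, ← Finset.sum_add_distrib]
      refine Finset.sum_eq_zero fun i _ => ?_
      rw [← Finset.sum_add_distrib, ← Finset.sum_add_distrib]
      refine Finset.sum_eq_zero fun j _ => ?_
      rw [← Finset.sum_add_distrib, ← Finset.sum_add_distrib]
      refine Finset.sum_eq_zero fun k _ => ?_
      rw [← mul_add, ← mul_add, Geo42.bianchi h l4 i j k l, mul_zero]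
    have e5 : FR.K e n0 A θ a b c d + FR.K e n0 A θ b c a d + FR.K e n0 A θ c a b d = 0 := by
      have e6 : ∑ l, (∑ f, (FR.K e n0 A θ a b c f + FR.K e n0 A θ b c a f + FR.K e n0 A θ c a b f)
          * A f l) * θ l d = FR.K e n0 A θ a b c d + FR.K e n0 A θ b c a d + FR.K e n0 A θ c a b d := by
        simp only [Finset.sum_mul]
        rw [Finset.sum_comm]
        have : ∀ f, ∑ l, (FR.K e n0 A θ a b c f + FR.K e n0 A θ b c a f + FR.K e n0 A θ c a b f)
            * A f l * θ l d = (FR.K e n0 A θ a b c f + FR.K e n0 A θ b c a f + FR.K e n0 A θ c a b f)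
            * (if f = d then 1 else 0) := by
          intro f
          rw [← h.At, Finset.mul_sum]
          exact Finset.sum_congr rfl fun l _ => by ring
        simp only [this]
        simp
      rw [← e6]
      simp only [e1]
      simp
    simp only [FR.R]
    linear_combination -e5

end Pool.Agent.Helper47.RFn
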